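import Mathlib

open Cardinal Order Set

universe u

namespace Pool.Agent.Work.MP_45cf3b_lc

/-- The Galvin property (at `κ`) of a filter `F` on a type `X`: every `κ⁺`-indexed sequence of
members of `F` has a subfamily of size `κ` whose intersection is a member of `F`. -/
def GalvinProperty {X : Type u} (κ : Cardinal.{u}) (F : Filter X) : Prop :=
  ∀ A : (succ κ).ord.ToType → Set X, (∀ i, A i ∈ F) →
    ∃ I : Set (succ κ).ord.ToType, #I = κ ∧ (⋂ i ∈ I, A i) ∈ F

end Pool.Agent.Work.MP_45cf3b_lc
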