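import Mathlib
import Pool.Agent.Work.MP_45cf3b_lc.Defs

/-!
# `κ`-complete filters without the Galvin property, in ZFC

For every regular uncountable cardinal `κ` there is a proper `κ`-complete filter on `κ` that
contains every closed unbounded subset of `κ` and does not have the Galvin property.  No
cardinal-arithmetic hypothesis (such as GCH) is used.

Proof.  Let `T_p` (`p ∈ κ × κ`) be pairwise disjoint stationary subsets of `κ` (Ulam matrix if `κ`
is a successor, points of cofinality `μ⁺` for the various `μ < κ` if `κ` is a limit cardinal), let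
`f_i` (`i < κ⁺`) be pairwise eventually different functions from `κ` to `κ`, put
`B_i = ⋃ a, T_(a, f_i a)` and `A_i = κ \ B_i`, and let `F` be the `κ`-complete filter generated by
the club sets and the sets `A_i`.
-/

open Cardinal Order Set

universe u

namespace Pool.Agent.Work.MP_45cf3b_lc

/-- diagonal step: for at most `κ` many functions `κ → κ` there is one that is eventually
different from all of them. -/
theorem exists_diag (κ : Cardinal.{u}) (hκ : ℵ₀ ≤ κ) {J : Type u} (hJ : #J ≤ κ)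
    (g : J → κ.ord.ToType → κ.ord.ToType) :
    ∃ f : κ.ord.ToType → κ.ord.ToType, ∀ j, ∃ b, ∀ a, b ≤ a → f a ≠ g j a := by
  classical
  have hJ' : #J ≤ #κ.ord.ToType := by simpa using hJ
  obtain ⟨e⟩ := Cardinal.le_def _ _ |>.1 hJ'
  have key : ∀ a : κ.ord.ToType, ∃ v : κ.ord.ToType, ∀ j, e j ≤ a → v ≠ g j a := by
    intro a
    by_contra hcon
    push Not at hcon
    have hsub : (univ : Set κ.ord.ToType) ⊆ (fun j => g j a) '' {j | e j ≤ a} := by
      intro v _
      obtain ⟨j, hj, hv⟩ := hcon v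
      exact ⟨j, hj, hv.symm⟩
    have h1 : #(univ : Set κ.ord.ToType) ≤ #{j | e j ≤ a} :=
      (mk_le_mk_of_subset hsub).trans mk_image_le
    have h2 : #{j | e j ≤ a} ≤ #(Iic a) := by
      refine mk_le_of_injective (f := fun j => (⟨e j.1, j.2⟩ : Iic a)) ?_
      intro x y hxy
      have := congrArg Subtype.val hxy
      exact Subtype.ext (e.injective this)
    have h3 : #(Iic a) < κ := by
      have : #(Iio a) < κ := by simpa using mk_Iio_lt a
      have h4 : Iic a = insert a (Iio a) := by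
        ext x; simp [le_iff_lt_or_eq, or_comm]
      rw [h4]
      refine (mk_insert_le).trans_lt ?_
      exact add_lt_of_lt hκ this (one_lt_aleph0.trans_le hκ)
    have : κ < κ := by
      calc κ = #(univ : Set κ.ord.ToType) := by simp
        _ ≤ _ := h1
        _ ≤ _ := h2
        _ < κ := h3
    exact lt_irrefl _ this
  choose f hf using key
  exact ⟨f, fun j => ⟨e j, fun a ha => hf a j ha⟩⟩

/-- A family of `κ⁺` many pairwise eventually different functions `κ → κ`. -/
theorem exists_family (κ : Cardinal.{u}) (hκ : ℵ₀ ≤ κ) :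
    ∃ f : (succ κ).ord.ToType → κ.ord.ToType → κ.ord.ToType,
      ∀ i j, i ≠ j → ∃ b, ∀ a, b ≤ a → f i a ≠ f j a := by
  classical
  have hcard : ∀ i : (succ κ).ord.ToType, #(Iio i) ≤ κ := by
    intro i
    have : #(Iio i) < succ κ := by simpa using mk_Iio_lt i
    exact lt_succ_iff.1 this
  let f : (succ κ).ord.ToType → (κ.ord.ToType → κ.ord.ToType) :=
    WellFoundedLT.fix fun i ih => Classical.choose (exists_diag κ hκ (hcard i)
      (fun j : Iio i => ih j.1 j.2))
  have hf : ∀ i, ∀ j < i, ∃ b, ∀ a, b ≤ a → f i a ≠ f j a := by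
    intro i j hj
    have h1 : f i = Classical.choose (exists_diag κ hκ (hcard i)
      (fun j : Iio i => f j.1)) := WellFoundedLT.fix_eq _ i
    have h2 := Classical.choose_spec (exists_diag κ hκ (hcard i)
      (fun j : Iio i => f j.1))
    rw [← h1] at h2
    exact h2 ⟨j, hj⟩
  refine ⟨f, fun i j hij => ?_⟩
  rcases lt_or_gt_of_ne hij with h | h
  · obtain ⟨b, hb⟩ := hf j i h
    exact ⟨b, fun a ha => (hb a ha).symm⟩
  · exact hf i j h

/-- If `s` has fewer than `κ` elements and `j ∉ s`, there is `a` with `f j a ≠ f i a` for all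
`i ∈ s`. -/
theorem family_not_covered (κ : Cardinal.{u}) (hκ : κ.IsRegular)
    {J : Type u} (f : J → κ.ord.ToType → κ.ord.ToType)
    (hf : ∀ i j, i ≠ j → ∃ b, ∀ a, b ≤ a → f i a ≠ f j a)
    (s : Set J) (hs : #s < κ) (j : J) (hj : j ∉ s) :
    ∃ a, ∀ i ∈ s, f j a ≠ f i a := by
  classical
  have : ∀ i : s, ∃ b, ∀ a, b ≤ a → f j a ≠ f i.1 a := fun i =>
    hf j i.1 (fun h => hj (h ▸ i.2))
  choose b hb using this
  have hcof : ¬ IsCofinal (Set.range b) := by
    intro hc
    have h1 := Order.cof_le hc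
    have h2 : Order.cof κ.ord.ToType = κ := by
      rw [Ordinal.cof_toType, hκ.cof_ord]
    rw [h2] at h1
    exact (h1.trans mk_range_le).not_gt hs
  rw [not_isCofinal_iff] at hcof
  obtain ⟨a, ha⟩ := hcof
  refine ⟨a, fun i hi => hb ⟨i, hi⟩ a ?_⟩
  have := ha (b ⟨i, hi⟩) (Set.mem_range_self _)
  exact this.le


/-- General extension theorem: a `κ`-complete filter `G` with `κ` many pairwise disjoint
positive sets extends to a proper `κ`-complete filter without the Galvin property. -/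
theorem exists_extension (κ : Cardinal.{u}) (hκ : κ.IsRegular) {X : Type u} (G : Filter X)
    [CardinalInterFilter G κ] {P : Type u} (hP : κ ≤ #P) (T : P → Set X)
    (hdisj : ∀ p q, p ≠ q → Disjoint (T p) (T q)) (hpos : ∀ p, (T p)ᶜ ∉ G) :
    ∃ F : Filter X, F.NeBot ∧ CardinalInterFilter F κ ∧ F ≤ G ∧ ¬ GalvinProperty κ F := by
  classical
  obtain ⟨f, hf⟩ := exists_family κ hκ.aleph0_le
  -- index set injection
  have hinj : #(κ.ord.ToType × κ.ord.ToType) ≤ #P := by
    have : #(κ.ord.ToType × κ.ord.ToType) = κ := by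
      rw [mk_prod]; simp [mul_eq_self hκ.aleph0_le]
    rw [this]; exact hP
  obtain ⟨e⟩ := Cardinal.le_def _ _ |>.1 hinj
  let J := (succ κ).ord.ToType
  let B : J → Set X := fun i => ⋃ a, T (e (a, f i a))
  let A : J → Set X := fun i => (B i)ᶜ
  -- key property
  have key : ∀ (s : Set J), #s < κ → ∀ j, j ∉ s → ∀ g ∈ G, ¬ (g ∩ ⋂ i ∈ s, A i) ⊆ A j := by
    intro s hs j hj g hg hsub
    obtain ⟨a, ha⟩ := family_not_covered κ hκ f hf s hs j hj
    apply hpos (e (a, f j a))
    refine Filter.mem_of_superset hg ?_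
    intro x hx hxT
    have hxA : x ∈ ⋂ i ∈ s, A i := by
      simp only [mem_iInter]
      intro i hi hxB
      obtain ⟨a', ha'⟩ := mem_iUnion.1 hxB
      by_cases h : e (a', f i a') = e (a, f j a)
      · have := e.injective h
        simp only [Prod.mk.injEq] at this
        obtain ⟨rfl, h2⟩ := this
        exact ha i hi h2.symm
      · exact (Set.disjoint_left.1 (hdisj _ _ h) ha') hxT
    exact hsub ⟨hx, hxA⟩ (mem_iUnion.2 ⟨a, hxT⟩)
  have hκpos : 0 < κ := hκ.pos
  -- the filter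
  let F : Filter X :=
    { sets := {Y | ∃ s : Set J, #s < κ ∧ ∃ g ∈ G, (g ∩ ⋂ i ∈ s, A i) ⊆ Y}
      univ_sets := ⟨∅, by simpa using hκpos, univ, Filter.univ_mem, by simp⟩
      sets_of_superset := by
        rintro x y ⟨s, hs, g, hg, h⟩ hxy
        exact ⟨s, hs, g, hg, h.trans hxy⟩
      inter_sets := by
        rintro x y ⟨s, hs, g, hg, h⟩ ⟨s', hs', g', hg', h'⟩
        refine ⟨s ∪ s', ?_, g ∩ g', Filter.inter_mem hg hg', ?_⟩
        · exact (mk_union_le s s').trans_lt (add_lt_of_lt hκ.aleph0_le hs hs')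
        · intro z hz
          refine ⟨h ⟨hz.1.1, ?_⟩, h' ⟨hz.1.2, ?_⟩⟩
          · have := hz.2
            simp only [mem_iInter] at this ⊢
            exact fun i hi => this i (Or.inl hi)
          · have := hz.2
            simp only [mem_iInter] at this ⊢
            exact fun i hi => this i (Or.inr hi) }
  have hmem : ∀ Y, Y ∈ F ↔ ∃ s : Set J, #s < κ ∧ ∃ g ∈ G, (g ∩ ⋂ i ∈ s, A i) ⊆ Y :=
    fun Y => Iff.rfl
  have hJcard : #J = succ κ := by simp [J]
  refine ⟨F, ?_, ?_, ?_, ?_⟩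
  · rw [Filter.neBot_iff, Ne, ← Filter.empty_mem_iff_bot, hmem]
    rintro ⟨s, hs, g, hg, h⟩
    have : ∃ j, j ∉ s := by
      by_contra hcon
      push Not at hcon
      have h1 : s = Set.univ := eq_univ_of_forall hcon
      rw [h1, mk_univ, hJcard] at hs
      exact (lt_succ κ).not_ge hs.le
    obtain ⟨j, hj⟩ := this
    exact key s hs j hj g hg (h.trans (empty_subset _))
  · constructor
    intro S hS hSF
    have h1 : ∀ Y : S, ∃ s : Set J, #s < κ ∧ ∃ g ∈ G, (g ∩ ⋂ i ∈ s, A i) ⊆ Y.1 :=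
      fun Y => (hmem _).1 (hSF Y.1 Y.2)
    choose s hs g hg hsub using h1
    rw [hmem]
    refine ⟨⋃ Y, s Y, ?_, ⋂ Y, g Y, ?_, ?_⟩
    · exact (card_iUnion_lt_iff_forall_of_isRegular hκ hS).2 hs
    · exact (Filter.cardinal_iInter_mem hS).2 hg
    · intro z hz
      rw [mem_sInter]
      intro Y hY
      refine hsub ⟨Y, hY⟩ ⟨mem_iInter.1 hz.1 ⟨Y, hY⟩, ?_⟩
      have := hz.2
      simp only [mem_iInter] at this ⊢
      intro i hi
      exact this i (mem_iUnion.2 ⟨⟨Y, hY⟩, hi⟩)
  · intro Y hY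
    exact (hmem _).2 ⟨∅, by simpa using hκpos, Y, hY, by simp⟩
  · intro hgal
    obtain ⟨I, hI, hIF⟩ := hgal A (fun i => (hmem _).2 ⟨{i}, by
      rw [mk_singleton]; exact one_lt_aleph0.trans_le hκ.aleph0_le, univ, Filter.univ_mem, by simp⟩)
    obtain ⟨s, hs, g, hg, h⟩ := (hmem _).1 hIF
    have : ∃ j ∈ I, j ∉ s := by
      by_contra hcon
      push Not at hcon
      have h1 : #I ≤ #s := mk_le_mk_of_subset hcon
      rw [hI] at h1
      exact h1.not_gt hs
    obtain ⟨j, hjI, hj⟩ := this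
    refine key s hs j hj g hg (h.trans ?_)
    intro z hz
    exact (mem_iInter₂.1 hz) j hjI


theorem mkIio_lt (κ : Cardinal.{u}) (x : κ.ord.ToType) : #(Iio x) < κ := by
  simpa using mk_Iio_lt x

theorem mkIic_lt (κ : Cardinal.{u}) (hκ : ℵ₀ ≤ κ) (x : κ.ord.ToType) : #(Iic x) < κ := by
  have h4 : Iic x = insert x (Iio x) := by
    ext x; simp [le_iff_lt_or_eq, or_comm]
  rw [h4]
  refine (mk_insert_le).trans_lt ?_
  exact add_lt_of_lt hκ (mkIio_lt κ x) (one_lt_aleph0.trans_le hκ)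

theorem cofToType (κ : Cardinal.{u}) (hκ : κ.IsRegular) : Order.cof κ.ord.ToType = κ := by
  rw [Ordinal.cof_toType, hκ.cof_ord]

/-- Ulam matrix: disjoint stationary sets on a successor cardinal. -/
theorem disjoint_stationary_succ (μ : Cardinal.{u}) (hμ : ℵ₀ ≤ μ) :
    ∃ (P : Type u) (T : P → Set (succ μ).ord.ToType), succ μ ≤ #P ∧
      (∀ p q, p ≠ q → Disjoint (T p) (T q)) ∧ ∀ p, IsStationary (T p) := by
  classical
  have hreg : (succ μ).IsRegular := isRegular_succ hμ
  have hcof := cofToType (succ μ) hreg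
  have hlt : ∀ x : (succ μ).ord.ToType, #(Iio x) ≤ #(μ.ord.ToType) := by
    intro x
    simpa using lt_succ_iff.1 (mkIio_lt _ x)
  have hemb : ∀ x : (succ μ).ord.ToType, ∃ φ : Iio x → μ.ord.ToType, Function.Injective φ := by
    intro x
    obtain ⟨e⟩ := Cardinal.le_def _ _ |>.1 (hlt x)
    exact ⟨e, e.injective⟩
  choose φ hφ using hemb
  let A : (succ μ).ord.ToType → μ.ord.ToType → Set (succ μ).ord.ToType :=
    fun y m => {x | ∃ h : y < x, φ x ⟨y, h⟩ = m}
  have hA : ∀ y, ∃ m, IsStationary (A y m) := by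
    intro y
    have hU : (⋃ m, A y m) = Ioi y := by
      ext x
      simp only [A, mem_iUnion, mem_ofPred_eq, mem_Ioi]
      constructor
      · rintro ⟨m, h, -⟩; exact h
      · intro h; exact ⟨_, h, rfl⟩
    have hst : IsStationary (Ioi y) := by
      apply IsStationary.of_not_isCofinal_compl
      intro hc
      have h1 := Order.cof_le hc
      rw [hcof, compl_Ioi] at h1
      exact h1.not_gt (mkIic_lt _ hreg.aleph0_le y)
    rw [← hU] at hst
    refine (isStationary_iUnion_iff ?_ ?_).1 hst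
    · rw [hcof]; exact (hμ.trans_lt (lt_succ μ)).ne'
    · rw [hcof]; simp
  choose m hm using hA
  obtain ⟨m0, hm0⟩ := infinite_pigeonhole_card m (succ μ) (by simp) hreg.aleph0_le (by
    rw [hreg.cof_ord]; simp)
  refine ⟨m ⁻¹' {m0}, fun p => A p.1 m0, hm0, ?_, ?_⟩
  · intro p q hpq
    rw [Set.disjoint_left]
    rintro x ⟨h1, h2⟩ ⟨h3, h4⟩
    apply hpq
    have := hφ x (h2.trans h4.symm)
    exact Subtype.ext (congrArg (fun z : Iio x => z.1) this)
  · intro p
    have := hm p.1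
    have h2 : m p.1 = m0 := p.2
    rwa [h2] at this

/-- the points of cofinality `lam` are stationary in a regular cardinal `κ > lam`. -/
theorem stationary_cof (κ : Cardinal.{u}) (hκ : κ.IsRegular) (lam : Cardinal.{u})
    (hlam : lam.IsRegular) (hlt : lam < κ) :
    IsStationary {x : κ.ord.ToType | Order.cof (Iio x) = lam} := by
  classical
  have hcof := cofToType κ hκ
  have : IsRegularCardinalOrder κ.ord.ToType := ⟨by rw [hcof]; simp⟩
  intro C hC
  have hlt' : lam.ord < Ordinal.type (α := κ.ord.ToType) (· < ·) := by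
    simpa using hlt
  let y : κ.ord.ToType := Ordinal.enum (α := κ.ord.ToType) (· < ·) ⟨lam.ord, hlt'⟩
  have hy : Ordinal.typein (α := κ.ord.ToType) (· < ·) y = lam.ord := Ordinal.typein_enum _ _
  have hcy : Order.cof (Iio y) = lam := by
    rw [Order.cof_Iio, hy, hlam.cof_ord]
  have hnorm := IsClub.isNormal_enum hC
  have hylim : IsSuccLimit y := by
    constructor
    · intro hmin
      have h0 : IsEmpty (Iio y) := by
        constructor
        intro z
        exact (hmin z.2.le).not_gt z.2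
      rw [cof_eq_zero] at hcy
      exact hlam.pos.ne hcy
    · intro z hz
      have h1 : Order.cof (Iio y) = 1 := by
        rw [cof_eq_one_iff]
        refine ⟨⟨z, hz.lt⟩, fun w => ?_⟩
        exact not_lt.1 fun h => hz.2 h w.2
      rw [hcy] at h1
      exact (one_lt_aleph0.trans_le hlam.aleph0_le).ne' h1
  refine ⟨(enum C hC.isCofinal y).1, ?_, (enum C hC.isCofinal y).2⟩
  show Order.cof (Iio (enum C hC.isCofinal y).1) = lam
  rw [← hcy]
  have hmono : StrictMono (fun a : Iio y => (⟨(enum C hC.isCofinal a.1).1, by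
      exact hnorm.strictMono a.2⟩ : Iio (enum C hC.isCofinal y).1)) := by
    intro a b hab
    exact hnorm.strictMono hab
  refine (cof_congr_of_strictMono hmono ?_).symm
  intro b
  obtain ⟨a, ha, hb⟩ := (hnorm.lt_iff_exists_lt hylim).1 b.2
  exact ⟨_, ⟨⟨a, ha⟩, rfl⟩, hb.le⟩

/-- disjoint stationary sets on a regular limit cardinal. -/
theorem disjoint_stationary_limit (κ : Cardinal.{u}) (hκ : κ.IsRegular) 
    (hlim : ∀ μ < κ, succ μ < κ) (hκ' : ℵ₀ < κ) :
    ∃ (P : Type u) (T : P → Set κ.ord.ToType), κ ≤ #P ∧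
      (∀ p q, p ≠ q → Disjoint (T p) (T q)) ∧ ∀ p, IsStationary (T p) := by
  classical
  -- indices: points whose typein is the initial ordinal of an infinite cardinal
  let S : Set κ.ord.ToType := {x | ∃ μ : Cardinal.{u}, ℵ₀ ≤ μ ∧ μ < κ ∧
    Ordinal.typein (α := κ.ord.ToType) (· < ·) x = μ.ord}
  have hS : IsCofinal S := by
    intro x
    let μ : Cardinal.{u} := max ℵ₀ (succ #(Iio x))
    have hμ : μ < κ := max_lt hκ' (hlim _ (mkIio_lt κ x))
    have hlt' : μ.ord < Ordinal.type (α := κ.ord.ToType) (· < ·) := by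
      simpa using hμ
    refine ⟨Ordinal.enum (α := κ.ord.ToType) (· < ·) ⟨μ.ord, hlt'⟩,
      ⟨μ, le_max_left _ _, hμ, Ordinal.typein_enum _ _⟩, ?_⟩
    rw [← not_lt, ← Ordinal.typein_lt_typein (α := κ.ord.ToType) (· < ·), Ordinal.typein_enum,
      not_lt]
    have : (Ordinal.typein (α := κ.ord.ToType) (· < ·) x).card < μ := by
      refine lt_of_lt_of_le ?_ (le_max_right _ _)
      exact lt_succ _
    exact (lt_ord.2 this).le
  have hcard : κ ≤ #S := by
    have := Order.cof_le hS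
    rwa [cofToType κ hκ] at this
  have hch : ∀ x : S, ∃ μ : Cardinal.{u}, ℵ₀ ≤ μ ∧ μ < κ ∧
    Ordinal.typein (α := κ.ord.ToType) (· < ·) x.1 = μ.ord := fun x => x.2
  choose μ hμ1 hμ2 hμ3 using hch
  refine ⟨S, fun p => {x : κ.ord.ToType | Order.cof (Iio x) = succ (μ p)}, hcard, ?_, ?_⟩
  · intro p q hpq
    rw [Set.disjoint_left]
    intro x hx hx'
    apply hpq
    have h1 : succ (μ p) = succ (μ q) := hx.symm.trans hx'
    have h2 : μ p = μ q := succ_injective h1
    have h3 := hμ3 p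
    rw [h2, ← hμ3 q] at h3
    exact Subtype.ext (Ordinal.typein_injective _ h3)
  · intro p
    exact stationary_cof κ hκ _ (isRegular_succ (hμ1 p)) (hlim _ (hμ2 p))

/-- `κ` many disjoint stationary sets on every regular uncountable cardinal `κ`. -/
theorem disjoint_stationary (κ : Cardinal.{u}) (hκ : κ.IsRegular) (hκ' : ℵ₀ < κ) :
    ∃ (P : Type u) (T : P → Set κ.ord.ToType), κ ≤ #P ∧
      (∀ p q, p ≠ q → Disjoint (T p) (T q)) ∧ ∀ p, IsStationary (T p) := by
  by_cases h : ∀ μ < κ, succ μ < κ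
  · exact disjoint_stationary_limit κ hκ h hκ'
  · push Not at h
    obtain ⟨μ, h1, h2⟩ := h
    have h3 : κ = succ μ := le_antisymm h2 (succ_le_of_lt h1)
    subst h3
    exact disjoint_stationary_succ μ (lt_succ_iff.1 hκ')

/-- The filter generated by the clubs of `κ`. -/
def clubFilter (κ : Cardinal.{u}) (hκ : κ.IsRegular) (hκ' : ℵ₀ < κ) : Filter κ.ord.ToType where
  sets := {Y | ∃ C, IsClub C ∧ C ⊆ Y}
  univ_sets := ⟨Set.univ, .univ, subset_rfl⟩
  sets_of_superset := by
    rintro x y ⟨C, hC, h⟩ hxy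
    exact ⟨C, hC, h.trans hxy⟩
  inter_sets := by
    rintro x y ⟨C, hC, h⟩ ⟨D, hD, h'⟩
    refine ⟨C ∩ D, IsClub.inter ?_ hC hD, inter_subset_inter h h'⟩
    rw [cofToType κ hκ]; exact hκ'.ne'

theorem mem_clubFilter {κ : Cardinal.{u}} {hκ : κ.IsRegular} {hκ' : ℵ₀ < κ}
    {Y : Set κ.ord.ToType} : Y ∈ clubFilter κ hκ hκ' ↔ ∃ C, IsClub C ∧ C ⊆ Y := Iff.rfl

theorem clubFilter_complete (κ : Cardinal.{u}) (hκ : κ.IsRegular) (hκ' : ℵ₀ < κ) :
    CardinalInterFilter (clubFilter κ hκ hκ') κ := by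
  constructor
  intro S hS hSF
  have h1 : ∀ Y : S, ∃ C, IsClub C ∧ C ⊆ Y.1 := fun Y => hSF Y.1 Y.2
  choose C hC hsub using h1
  refine ⟨⋂ Y, C Y, IsClub.iInter ?_ ?_ hC, ?_⟩
  · rw [cofToType κ hκ]; exact hκ'.ne'
  · rw [cofToType κ hκ]; simpa using hS
  · intro z hz
    rw [mem_sInter]
    intro Y hY
    exact hsub ⟨Y, hY⟩ (mem_iInter.1 hz ⟨Y, hY⟩)

theorem main (κ : Cardinal.{u}) (hκ : κ.IsRegular) (hκ' : ℵ₀ < κ) :
    ∃ F : Filter κ.ord.ToType, F.NeBot ∧ CardinalInterFilter F κ ∧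
      (∀ C : Set κ.ord.ToType, IsClub C → C ∈ F) ∧ ¬ GalvinProperty κ F := by
  obtain ⟨P, T, hP, hdisj, hst⟩ := disjoint_stationary κ hκ hκ'
  have := clubFilter_complete κ hκ hκ'
  obtain ⟨F, h1, h2, h3, h4⟩ := exists_extension κ hκ (clubFilter κ hκ hκ') hP T hdisj (by
    rintro p ⟨C, hC, hsub⟩
    obtain ⟨x, hx1, hx2⟩ := hst p hC
    exact hsub hx2 hx1)
  exact ⟨F, h1, h2, fun C hC => h3 ⟨C, hC, subset_rfl⟩, h4⟩

end Pool.Agent.Work.MP_45cf3b_lc
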